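import Mathlib.RingTheory.MvPolynomial.Basic
import Mathlib.RingTheory.Polynomial.Basic
import Mathlib.RingTheory.Ideal.MinimalPrime.Basic
import Mathlib.RingTheory.Noetherian.Basic
import Mathlib.Algebra.DualNumber
import Mathlib.Combinatorics.SimpleGraph.Basic
import Mathlib.Tactic

/-!
MP_e1e5e2_ag: a Lovász–Saks–Schrijver ideal with an embedded prime.

The graph has `8` vertices `a, b, l, m, p, c, v, w = 0, …, 7` and the `12` edges
`al, bl, ma, ml, mp, cb, cp, va, vc, vb, wa, wb`, and `d = 3`. Put `n = a × l`, `x = b · n` and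
`y = w · n`. Then `x y` lies in the ideal, and where `h = (a·a)(l·l)(m·m)(v·l)(p·a)(c·c)` is
invertible the zero set is given by `x = 0`, on which `y` is not constant; but the ideal contains
`x²` and not `x` there.
-/

set_option autoImplicit false

namespace Pool.Agent.Results.MP_e1e5e2_ag.EmbeddedPrime

open MvPolynomial

/-- The `d`-th Lovász–Saks–Schrijver ideal of the graph `G` on `n` vertices over `k`: the ideal of
`k[x_{i,j} : 1 ≤ i ≤ d, 1 ≤ j ≤ n]` generated by `∑ᵢ x_{i,j} x_{i,l}` for the edges `{j, l}`. -/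
noncomputable def lssIdeal (k : Type) [Field k] (d n : ℕ) (G : SimpleGraph (Fin n)) :
    Ideal (MvPolynomial (Fin d × Fin n) k) :=
  Ideal.span {f | ∃ j l : Fin n, G.Adj j l ∧ f = ∑ i : Fin d, X (i, j) * X (i, l)}

/-- `P` is an associated prime of the ideal `I` (that is, of `R / I`): a prime ideal of the form
`I : f`. -/
def IsAssociated {R : Type} [CommRing R] (I P : Ideal R) : Prop :=
  P.IsPrime ∧ ∃ f : R, ∀ g : R, g ∈ P ↔ g * f ∈ I

/-- `P` is an embedded associated prime of `I`: it properly contains another one. -/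
def IsEmbedded {R : Type} [CommRing R] (I P : Ideal R) : Prop :=
  IsAssociated I P ∧ ∃ P' : Ideal R, IsAssociated I P' ∧ P' < P

/-- the edges of the graph -/
def edges : List (Fin 8 × Fin 8) :=
  [(0, 2), (1, 2), (3, 0), (3, 2), (3, 4), (5, 1), (5, 4), (6, 0), (6, 5), (6, 1), (7, 0), (7, 1)]

/-- the graph on `8` vertices with these `12` edges -/
def graph : SimpleGraph (Fin 8) := SimpleGraph.fromRel fun j l => (j, l) ∈ edges

/-! ### Associated primes -/

section

variable {R : Type} [CommRing R] (I : Ideal R) (M : Submonoid R)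

/-- the ideal of all `g` with `t g s ∈ I` for some `t ∈ M` -/
def sat (s : R) : Ideal R where
  carrier := {g | ∃ t ∈ M, t * g * s ∈ I}
  add_mem' := by
    rintro a b ⟨t, ht, hta⟩ ⟨u, hu, hub⟩
    refine ⟨t * u, M.mul_mem ht hu, ?_⟩
    have : t * u * (a + b) * s = u * (t * a * s) + t * (u * b * s) := by ring
    rw [this]
    exact I.add_mem (I.mul_mem_left _ hta) (I.mul_mem_left _ hub)
  zero_mem' := ⟨1, M.one_mem, by simp⟩
  smul_mem' := by
    rintro c a ⟨t, ht, hta⟩
    refine ⟨t, ht, ?_⟩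
    have : t * (c • a) * s = c * (t * a * s) := by rw [smul_eq_mul]; ring
    rw [this]
    exact I.mul_mem_left _ hta

lemma mem_sat (s g : R) : g ∈ sat I M s ↔ ∃ t ∈ M, t * g * s ∈ I := Iff.rfl

variable [IsNoetherianRing R]

lemma exists_associated (s₀ : R) (hs₀ : ∀ t ∈ M, t * s₀ ∉ I) :
    ∃ P : Ideal R, IsAssociated I P ∧ (∀ t ∈ M, t ∉ P) ∧ ∀ g, g * s₀ ∈ I → g ∈ P := by
  classical
  let F : Set (Ideal R) := {J | ∃ s', J = sat I M (s' * s₀) ∧ (1 : R) ∉ J}
  have hF : F.Nonempty := by
    refine ⟨sat I M (1 * s₀), 1, rfl, ?_⟩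
    rintro ⟨t, ht, h⟩
    rw [mul_one, one_mul] at h
    exact hs₀ t ht h
  obtain ⟨P, ⟨s', hP, h1⟩, hmax⟩ := set_has_maximal_iff_noetherian.mpr
    (inferInstance : IsNoetherian R R) F hF
  subst hP
  set s := s' * s₀ with hs
  have hprime : (sat I M s).IsPrime := by
    refine ⟨fun h => h1 ((Ideal.eq_top_iff_one _).mp h), fun {g g'} hgg' => ?_⟩
    by_contra hcon
    push Not at hcon
    obtain ⟨hg, hg'⟩ := hcon
    have hle : sat I M s ≤ sat I M ((g' * s') * s₀) := by
      rintro c ⟨t, ht, hc⟩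
      refine ⟨t, ht, ?_⟩
      have : t * c * (g' * s' * s₀) = g' * (t * c * s) := by rw [hs]; ring
      rw [this]
      exact I.mul_mem_left _ hc
    have hne : (1 : R) ∉ sat I M ((g' * s') * s₀) := by
      rintro ⟨t, ht, hc⟩
      apply hg'
      refine ⟨t, ht, ?_⟩
      have : t * g' * s = t * 1 * (g' * s' * s₀) := by rw [hs]; ring
      rw [this]
      exact hc
    have hnlt := hmax _ ⟨g' * s', rfl, hne⟩
    have heq : sat I M s = sat I M ((g' * s') * s₀) := by
      by_contra hne'
      exact hnlt (lt_of_le_of_ne hle hne')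
    apply hg
    rw [heq]
    obtain ⟨t, ht, hc⟩ := hgg'
    refine ⟨t, ht, ?_⟩
    have : t * g * (g' * s' * s₀) = t * (g * g') * s := by rw [hs]; ring
    rw [this]
    exact hc
  refine ⟨sat I M s, ⟨hprime, ?_⟩, ?_, ?_⟩
  · obtain ⟨T, hT⟩ := (isNoetherianRing_iff_ideal_fg R).mp inferInstance (sat I M s)
    have hall : ∀ T' : Finset R, (∀ g ∈ T', g ∈ sat I M s) → ∃ t ∈ M, ∀ g ∈ T', t * g * s ∈ I := by
      intro T'
      induction T' using Finset.induction_on with
      | empty => exact fun _ => ⟨1, M.one_mem, by simp⟩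
      | insert a T' ha ih =>
        intro h
        obtain ⟨t, ht, hts⟩ := ih fun g hg => h g (Finset.mem_insert_of_mem hg)
        obtain ⟨u, hu, hus⟩ := h a (Finset.mem_insert_self _ _)
        refine ⟨t * u, M.mul_mem ht hu, fun g hg => ?_⟩
        rcases Finset.mem_insert.mp hg with rfl | hg
        · have : t * u * g * s = t * (u * g * s) := by ring
          rw [this]
          exact I.mul_mem_left _ hus
        · have : t * u * g * s = u * (t * g * s) := by ring
          rw [this]
          exact I.mul_mem_left _ (hts g hg)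
    obtain ⟨t, ht, hts⟩ := hall T fun g hg => by
      rw [← hT]
      exact Ideal.subset_span hg
    refine ⟨t * s, fun g => ⟨fun hg => ?_, fun hg => ⟨t, ht, ?_⟩⟩⟩
    · rw [← hT] at hg
      induction hg using Submodule.span_induction with
      | mem g hg =>
        have : g * (t * s) = t * g * s := by ring
        rw [this]
        exact hts g hg
      | zero => rw [zero_mul]; exact I.zero_mem
      | add g g' _ _ h h' => rw [add_mul]; exact I.add_mem h h'
      | smul r g _ h => rw [smul_eq_mul, mul_assoc]; exact I.mul_mem_left _ h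
    · have : t * g * s = g * (t * s) := by ring
      rw [this]
      exact hg
  · rintro t ht ⟨u, hu, h⟩
    apply h1
    refine ⟨u * t, M.mul_mem hu ht, ?_⟩
    rw [mul_one]
    exact h
  · intro g hg
    refine ⟨1, M.one_mem, ?_⟩
    have : 1 * g * s = s' * (g * s₀) := by rw [hs]; ring
    rw [this]
    exact I.mul_mem_left _ hg

lemma minimal_associated (P : Ideal R) (hP : P ∈ I.minimalPrimes) : IsAssociated I P := by
  have hprime : P.IsPrime := hP.1.1
  obtain ⟨Q, hQ, hQM, hQI⟩ := exists_associated I P.primeCompl 1 (by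
    intro t ht h
    rw [mul_one] at h
    exact ht (hP.1.2 h))
  have h1 : Q ≤ P := by
    intro g hg
    by_contra h
    exact hQM g h hg
  have h2 : I ≤ Q := fun g hg => hQI g (by rwa [mul_one])
  have h3 : P ≤ Q := hP.2 ⟨hQ.1, h2⟩ h1
  rwa [← le_antisymm h1 h3]

lemma embedded_of (s₀ : R) (hs₀ : ∀ t ∈ M, t * s₀ ∉ I)
    (h : ∀ Q : Ideal R, Q.IsPrime → I ≤ Q → (∀ t ∈ M, t ∉ Q) → (∀ g, g * s₀ ∈ I → g ∈ Q) →
      ∃ P : Ideal R, P.IsPrime ∧ I ≤ P ∧ P < Q) :
    ∃ P : Ideal R, IsEmbedded I P := by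
  obtain ⟨Q, hQ, hQM, hQI⟩ := exists_associated I M s₀ hs₀
  obtain ⟨P, hP, hIP, hPQ⟩ := h Q hQ.1 (fun g hg => hQI g (I.mul_mem_right _ hg)) hQM hQI
  obtain ⟨P', hP', hle⟩ := Ideal.exists_minimalPrimes_le hIP
  exact ⟨Q, hQ, P', minimal_associated I P' hP', lt_of_le_of_lt hle hPQ⟩

end

/-! ### Vector algebra -/

section

variable {D : Type} [CommRing D]

/-- the dot product -/
def dot (u v : Fin 3 → D) : D := u 0 * v 0 + u 1 * v 1 + u 2 * v 2

/-- the cross product -/
def cr (u v : Fin 3 → D) : Fin 3 → D :=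
  ![u 1 * v 2 - u 2 * v 1, u 2 * v 0 - u 0 * v 2, u 0 * v 1 - u 1 * v 0]

lemma dot_comm (u v : Fin 3 → D) : dot u v = dot v u := by
  simp only [dot]
  ring

lemma gram (a l s t : Fin 3 → D) (h : dot a l = 0) :
    dot s (cr a l) * dot t (cr a l) =
      dot a a * dot l l * dot s t - dot a a * (dot l s * dot l t) -
        dot l l * (dot a s * dot a t) := by
  have e : dot s (cr a l) * dot t (cr a l) =
      dot a a * (dot l l * dot s t - dot l t * dot s l) -
        dot a l * (dot a l * dot s t - dot l t * dot s a) +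
        dot a t * (dot a l * dot s l - dot l l * dot s a) := by
    simp only [dot, cr, Matrix.cons_val_zero, Matrix.cons_val_one, Matrix.cons_val]
    ring
  rw [e, h, dot_comm s l, dot_comm s a]
  ring

lemma cr_self_left (a l : Fin 3 → D) : dot a (cr a l) = 0 := by
  simp only [dot, cr, Matrix.cons_val_zero, Matrix.cons_val_one, Matrix.cons_val]
  ring

lemma triple (a l m p : Fin 3 → D) (h1 : dot m a = 0) (h2 : dot m l = 0) (h3 : dot m p = 0) :
    dot m m * dot p (cr a l) = 0 := by
  have e : dot m m * dot p (cr a l) = dot m (cr a l) * dot m p -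
      dot m l * dot (cr p m) a + dot m a * dot (cr p m) l := by
    simp only [dot, cr, Matrix.cons_val_zero, Matrix.cons_val_one, Matrix.cons_val]
    ring
  rw [e, h1, h2, h3]
  ring

/-- the vectors `z 0, …, z 7` satisfy the orthogonality relations of the graph -/
def IsConfig (z : Fin 8 → Fin 3 → D) : Prop := ∀ e ∈ edges, dot (z e.1) (z e.2) = 0

/-- `n = a × l` -/
def nn (z : Fin 8 → Fin 3 → D) : Fin 3 → D := cr (z 0) (z 2)

/-- `h` -/
def hh (z : Fin 8 → Fin 3 → D) : D :=
  dot (z 0) (z 0) * dot (z 2) (z 2) * dot (z 3) (z 3) * dot (z 6) (z 2) * dot (z 4) (z 0) *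
    dot (z 5) (z 5)

/-- `x = b · n` -/
def xx (z : Fin 8 → Fin 3 → D) : D := dot (z 1) (nn z)

/-- `y = w · n` -/
def yy (z : Fin 8 → Fin 3 → D) : D := dot (z 7) (nn z)

lemma x_mul_y (z : Fin 8 → Fin 3 → D) (hz : IsConfig z) : xx z * yy z = 0 := by
  have h02 := hz (0, 2) (by simp [edges])
  have h12 := hz (1, 2) (by simp [edges])
  have h70 := hz (7, 0) (by simp [edges])
  have h71 := hz (7, 1) (by simp [edges])
  simp only at h02 h12 h70 h71
  rw [xx, yy, nn, gram _ _ _ _ h02, dot_comm (z 1), h71, dot_comm (z 2) (z 1), h12,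
    dot_comm (z 0) (z 7), h70]
  ring

lemma nn_sq (z : Fin 8 → Fin 3 → D) (hz : IsConfig z) :
    dot (nn z) (nn z) = dot (z 0) (z 0) * dot (z 2) (z 2) := by
  have h02 := hz (0, 2) (by simp [edges])
  simp only at h02
  have e : dot (nn z) (nn z) = dot (z 0) (z 0) * dot (z 2) (z 2) - dot (z 0) (z 2) ^ 2 := by
    simp only [nn, dot, cr, Matrix.cons_val_zero, Matrix.cons_val_one, Matrix.cons_val]
    ring
  rw [e, h02]
  ring

variable [IsDomain D]

lemma x_eq_zero (z : Fin 8 → Fin 3 → D) (hz : IsConfig z) (h : hh z ≠ 0) : xx z = 0 := by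
  have h02 := hz (0, 2) (by simp [edges])
  have h12 := hz (1, 2) (by simp [edges])
  have h30 := hz (3, 0) (by simp [edges])
  have h32 := hz (3, 2) (by simp [edges])
  have h34 := hz (3, 4) (by simp [edges])
  have h51 := hz (5, 1) (by simp [edges])
  have h54 := hz (5, 4) (by simp [edges])
  have h60 := hz (6, 0) (by simp [edges])
  have h65 := hz (6, 5) (by simp [edges])
  have h61 := hz (6, 1) (by simp [edges])
  simp only at h02 h12 h30 h32 h34 h51 h54 h60 h65 h61
  have hc : dot (z 5) (z 5) ≠ 0 := fun h' => h (by rw [hh, h']; ring)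
  have hp : dot (z 4) (z 0) ≠ 0 := fun h' => h (by rw [hh, h']; ring)
  have hv : dot (z 6) (z 2) ≠ 0 := fun h' => h (by rw [hh, h']; ring)
  have hm : dot (z 3) (z 3) ≠ 0 := fun h' => h (by rw [hh, h']; ring)
  have hl : dot (z 2) (z 2) ≠ 0 := fun h' => h (by rw [hh, h']; ring)
  have ha : dot (z 0) (z 0) ≠ 0 := fun h' => h (by rw [hh, h']; ring)
  by_contra hx
  -- `p · n = 0`
  have hpn : dot (z 4) (nn z) = 0 :=
    (mul_eq_zero.mp (triple (z 0) (z 2) (z 3) (z 4) h30 h32 h34)).resolve_left hm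
  -- `v · n = 0`
  have hvn : dot (z 6) (nn z) = 0 := by
    have e := gram (z 0) (z 2) (z 6) (z 1) h02
    rw [h61, dot_comm (z 2) (z 1), h12, dot_comm (z 0) (z 6), h60] at e
    have e' : dot (z 6) (nn z) * xx z = 0 := by
      rw [nn, xx, nn, e]
      ring
    exact (mul_eq_zero.mp e').resolve_right hx
  -- `l · c = 0`
  have hlc : dot (z 2) (z 5) = 0 := by
    have e := gram (z 0) (z 2) (z 6) (z 5) h02
    rw [h65, dot_comm (z 0) (z 6), h60] at e
    have e0 : dot (z 6) (cr (z 0) (z 2)) = 0 := hvn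
    rw [e0, dot_comm (z 2) (z 6)] at e
    have e' : dot (z 0) (z 0) * (dot (z 6) (z 2) * dot (z 2) (z 5)) = 0 := by
      linear_combination e
    exact (mul_eq_zero.mp ((mul_eq_zero.mp e').resolve_left ha)).resolve_left hv
  -- `a · c = 0`
  have hac : dot (z 0) (z 5) = 0 := by
    have e := gram (z 0) (z 2) (z 4) (z 5) h02
    have e0 : dot (z 4) (cr (z 0) (z 2)) = 0 := hpn
    rw [e0, dot_comm (z 4) (z 5), h54, hlc, dot_comm (z 0) (z 4)] at e
    have e' : dot (z 2) (z 2) * (dot (z 4) (z 0) * dot (z 0) (z 5)) = 0 := by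
      linear_combination e
    exact (mul_eq_zero.mp ((mul_eq_zero.mp e').resolve_left hl)).resolve_left hp
  -- `c · n = 0`
  have hcn : dot (z 5) (nn z) = 0 := by
    have e := gram (z 0) (z 2) (z 1) (z 5) h02
    rw [dot_comm (z 1) (z 5), h51, hlc, hac] at e
    have e' : xx z * dot (z 5) (nn z) = 0 := by
      rw [xx, nn, e]
      ring
    exact (mul_eq_zero.mp e').resolve_left hx
  have e := gram (z 0) (z 2) (z 5) (z 5) h02
  rw [hlc, hac] at e
  have e0 : dot (z 5) (cr (z 0) (z 2)) = 0 := hcn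
  rw [e0] at e
  have e' : dot (z 0) (z 0) * dot (z 2) (z 2) * dot (z 5) (z 5) = 0 := by
    linear_combination -e
  exact mul_ne_zero (mul_ne_zero ha hl) hc e'

end

/-! ### The theorem -/

section

variable {k : Type} [Field k]

/-- the generic configuration -/
noncomputable def gen (k : Type) [Field k] : Fin 8 → Fin 3 → MvPolynomial (Fin 3 × Fin 8) k :=
  fun j i => X (i, j)

lemma map_dot {D E : Type} [CommRing D] [CommRing E] (f : D →+* E) (u v : Fin 3 → D) :
    f (dot u v) = dot (fun i => f (u i)) (fun i => f (v i)) := by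
  simp only [dot, map_add, map_mul]

lemma map_cr {D E : Type} [CommRing D] [CommRing E] (f : D →+* E) (u v : Fin 3 → D) :
    (fun i => f (cr u v i)) = cr (fun i => f (u i)) (fun i => f (v i)) := by
  funext i
  fin_cases i <;> simp [cr]

lemma map_hh {D E : Type} [CommRing D] [CommRing E] (f : D →+* E) (z : Fin 8 → Fin 3 → D) :
    f (hh z) = hh (fun j i => f (z j i)) := by
  simp only [hh, map_mul, map_dot]

lemma map_xx {D E : Type} [CommRing D] [CommRing E] (f : D →+* E) (z : Fin 8 → Fin 3 → D) :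
    f (xx z) = xx (fun j i => f (z j i)) := by
  simp only [xx, nn, map_dot, map_cr]

lemma map_yy {D E : Type} [CommRing D] [CommRing E] (f : D →+* E) (z : Fin 8 → Fin 3 → D) :
    f (yy z) = yy (fun j i => f (z j i)) := by
  simp only [yy, nn, map_dot, map_cr]

lemma adj_iff (j l : Fin 8) : graph.Adj j l ↔ (j, l) ∈ edges ∨ (l, j) ∈ edges := by
  rw [graph, SimpleGraph.fromRel_adj]
  constructor
  · exact fun h => h.2
  · intro h
    refine ⟨?_, h⟩
    rintro rfl
    revert h
    revert j
    decide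

lemma sum_eq_dot (j l : Fin 8) :
    (∑ i : Fin 3, X (i, j) * X (i, l) : MvPolynomial (Fin 3 × Fin 8) k) =
      dot (gen k j) (gen k l) := by
  rw [Fin.sum_univ_three]
  rfl

lemma le_ker_iff {E : Type} [CommRing E] (f : MvPolynomial (Fin 3 × Fin 8) k →+* E) :
    lssIdeal k 3 8 graph ≤ RingHom.ker f ↔ IsConfig (fun j i => f (gen k j i)) := by
  rw [lssIdeal, Ideal.span_le]
  constructor
  · rintro h ⟨j, l⟩ he
    have := h ⟨j, l, (adj_iff j l).mpr (Or.inl he), rfl⟩
    rw [SetLike.mem_coe, RingHom.mem_ker, sum_eq_dot, map_dot] at this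
    exact this
  · rintro h _ ⟨j, l, hjl, rfl⟩
    rw [SetLike.mem_coe, RingHom.mem_ker, sum_eq_dot, map_dot]
    rcases (adj_iff j l).mp hjl with he | he
    · exact h (j, l) he
    · rw [dot_comm]
      exact h (l, j) he

lemma x_mul_y_mem : xx (gen k) * yy (gen k) ∈ lssIdeal k 3 8 graph := by
  have h := (le_ker_iff (Ideal.Quotient.mk (lssIdeal k 3 8 graph))).mp (by
    rw [Ideal.mk_ker])
  rw [← Ideal.Quotient.eq_zero_iff_mem, map_mul, map_xx, map_yy]
  exact x_mul_y _ h

open DualNumber in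
/-- a configuration over the dual numbers with `x = -ε` -/
def ptEps (k : Type) [Field k] : Fin 8 → Fin 3 → DualNumber k :=
  ![![1, 0, 0], ![1, ε, 0], ![0, 0, 1], ![0, 1, 0], ![1, 0, 1], ![ε, -1, -ε], ![0, -ε, 1],
    ![0, 0, 1]]

lemma ptEps_config : IsConfig (ptEps k) := by
  intro e he
  simp only [edges, List.mem_cons, List.not_mem_nil, or_false] at he
  have hε := DualNumber.eps_mul_eps (R := k)
  rcases he with rfl | rfl | rfl | rfl | rfl | rfl | rfl | rfl | rfl | rfl | rfl | rfl <;>
    simp [ptEps, dot, hε]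

lemma ptEps_hh : hh (ptEps k) = 1 := by
  have hε := DualNumber.eps_mul_eps (R := k)
  simp [hh, ptEps, dot, hε]

lemma ptEps_xx : xx (ptEps k) = -DualNumber.eps := by
  simp [xx, nn, ptEps, dot, cr]

lemma pow_mul_x_notMem (t : ℕ) : hh (gen k) ^ t * xx (gen k) ∉ lssIdeal k 3 8 graph := by
  intro h
  let f : MvPolynomial (Fin 3 × Fin 8) k →+* DualNumber k :=
    eval₂Hom (algebraMap k (DualNumber k)) (fun ij => ptEps k ij.2 ij.1)
  have hf : (fun j i => f (gen k j i)) = ptEps k := by
    funext j i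
    exact eval₂Hom_X' _ _ _
  have hle : lssIdeal k 3 8 graph ≤ RingHom.ker f := by
    rw [le_ker_iff, hf]
    exact ptEps_config
  have h0 : f (hh (gen k) ^ t * xx (gen k)) = 0 := hle h
  rw [map_mul, map_pow, map_hh, map_xx, hf, ptEps_hh, ptEps_xx, one_pow, one_mul] at h0
  have h1 := congrArg TrivSqZeroExt.snd (neg_eq_zero.mp h0)
  simp at h1

/-- The deformation: moving `w` in the direction `n`. -/
lemma deform {D : Type} [CommRing D] [IsDomain D] (π : MvPolynomial (Fin 3 × Fin 8) k →+* D)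
    (hzc : IsConfig (fun j i => π (gen k j i))) (hh0 : hh (fun j i => π (gen k j i)) ≠ 0) :
    ∃ P : Ideal (MvPolynomial (Fin 3 × Fin 8) k), P.IsPrime ∧ lssIdeal k 3 8 graph ≤ P ∧
      P ≤ RingHom.ker π ∧ yy (gen k) ∉ P := by
  have hx := x_eq_zero _ hzc hh0
  let z : Fin 8 → Fin 3 → D := fun j i => π (gen k j i)
  change IsConfig z at hzc
  change hh z ≠ 0 at hh0
  change xx z = 0 at hx
  let ζ : Fin 8 → Fin 3 → Polynomial D := fun j i =>
    if j = 7 then Polynomial.C (z j i) + Polynomial.X * Polynomial.C (nn z i)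
    else Polynomial.C (z j i)
  have hζ : ∀ j, j ≠ 7 → ζ j = fun i => Polynomial.C (z j i) := by
    intro j hj
    funext i
    exact if_neg hj
  have hζ7 : ∀ u : Fin 3 → D, dot (ζ 7) (fun i => Polynomial.C (u i)) =
      Polynomial.C (dot (z 7) u) + Polynomial.X * Polynomial.C (dot (nn z) u) := by
    intro u
    have e : ζ 7 = fun i => Polynomial.C (z 7 i) + Polynomial.X * Polynomial.C (nn z i) := by
      funext i
      exact if_pos rfl
    rw [e]
    simp only [dot, map_add, map_mul]
    ring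
  have hconf : ∀ j l : Fin 8, j ≠ 7 → l ≠ 7 → dot (z j) (z l) = 0 → dot (ζ j) (ζ l) = 0 := by
    intro j l hj hl h
    rw [hζ j hj, hζ l hl, ← map_dot Polynomial.C, h, map_zero]
  have hζc : IsConfig ζ := by
    intro e he
    have he' := he
    simp only [edges, List.mem_cons, List.not_mem_nil, or_false] at he'
    have h0 := hzc e he
    rcases he' with rfl | rfl | rfl | rfl | rfl | rfl | rfl | rfl | rfl | rfl | rfl | rfl
    · exact hconf _ _ (by decide) (by decide) h0
    · exact hconf _ _ (by decide) (by decide) h0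
    · exact hconf _ _ (by decide) (by decide) h0
    · exact hconf _ _ (by decide) (by decide) h0
    · exact hconf _ _ (by decide) (by decide) h0
    · exact hconf _ _ (by decide) (by decide) h0
    · exact hconf _ _ (by decide) (by decide) h0
    · exact hconf _ _ (by decide) (by decide) h0
    · exact hconf _ _ (by decide) (by decide) h0
    · exact hconf _ _ (by decide) (by decide) h0
    · change dot (ζ 7) (ζ 0) = 0
      rw [hζ 0 (by decide), hζ7]
      have h1 : dot (z 7) (z 0) = 0 := h0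
      have h2 : dot (nn z) (z 0) = 0 := by
        rw [dot_comm]
        exact cr_self_left _ _
      rw [h1, h2, map_zero, mul_zero, add_zero]
    · change dot (ζ 7) (ζ 1) = 0
      rw [hζ 1 (by decide), hζ7]
      have h1 : dot (z 7) (z 1) = 0 := h0
      have h2 : dot (nn z) (z 1) = 0 := by
        rw [dot_comm]
        exact hx
      rw [h1, h2, map_zero, mul_zero, add_zero]
  have hζy : yy ζ ≠ 0 := by
    have e : nn ζ = fun i => Polynomial.C (nn z i) := by
      rw [nn, hζ 0 (by decide), hζ 2 (by decide), nn]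
      exact (map_cr Polynomial.C _ _).symm
    rw [yy, e, hζ7, nn_sq z hzc]
    intro h
    have h1 := congrArg (fun q => Polynomial.coeff q 1) h
    simp only [Polynomial.coeff_add, Polynomial.coeff_C_succ, Polynomial.coeff_X_mul,
      Polynomial.coeff_C_zero, Polynomial.coeff_zero, zero_add] at h1
    apply hh0
    rw [hh, h1]
    ring
  let ψ : MvPolynomial (Fin 3 × Fin 8) k →+* Polynomial D :=
    eval₂Hom (Polynomial.C.comp (π.comp C)) (fun ij => ζ ij.2 ij.1)
  have hψ : (fun j i => ψ (gen k j i)) = ζ := by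
    funext j i
    exact eval₂Hom_X' _ _ _
  have hev : (Polynomial.evalRingHom (0 : D)).comp ψ = π := by
    apply MvPolynomial.ringHom_ext
    · intro r
      simp [ψ]
    · rintro ⟨i, j⟩
      have e1 : ψ (X (i, j)) = ζ j i := eval₂Hom_X' _ _ _
      rw [RingHom.comp_apply, e1]
      by_cases hj : j = 7
      · have e2 : ζ j i = Polynomial.C (z j i) + Polynomial.X * Polynomial.C (nn z i) :=
          if_pos hj
        rw [e2]
        simp [z, gen]
      · have e2 : ζ j i = Polynomial.C (z j i) := if_neg hj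
        rw [e2]
        simp [z, gen]
  refine ⟨RingHom.ker ψ, RingHom.ker_isPrime ψ, ?_, ?_, ?_⟩
  · rw [le_ker_iff, hψ]
    exact hζc
  · intro g hg
    rw [RingHom.mem_ker] at hg
    rw [RingHom.mem_ker, ← hev, RingHom.comp_apply, hg, map_zero]
  · rw [RingHom.mem_ker, map_yy, hψ]
    exact hζy

/-- A prime `Q` over the ideal which contains `y` and not `h` is not minimal. -/
lemma exists_smaller (Q : Ideal (MvPolynomial (Fin 3 × Fin 8) k)) (hQ : Q.IsPrime)
    (hLQ : lssIdeal k 3 8 graph ≤ Q) (hhQ : hh (gen k) ∉ Q) (hyQ : yy (gen k) ∈ Q) :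
    ∃ P : Ideal (MvPolynomial (Fin 3 × Fin 8) k), P.IsPrime ∧ lssIdeal k 3 8 graph ≤ P ∧
      P < Q := by
  have hdom : IsDomain (MvPolynomial (Fin 3 × Fin 8) k ⧸ Q) := Ideal.Quotient.isDomain Q
  obtain ⟨P, hP, hLP, hPQ, hyP⟩ := deform (Ideal.Quotient.mk Q)
    ((le_ker_iff _).mp (by rw [Ideal.mk_ker]; exact hLQ)) (by
      rw [← map_hh]
      intro h
      exact hhQ (Ideal.Quotient.eq_zero_iff_mem.mp h))
  rw [Ideal.mk_ker] at hPQ
  refine ⟨P, hP, hLP, lt_of_le_of_ne hPQ ?_⟩
  rintro rfl
  exact hyP hyQ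

end

/-- For the graph `graph` with `8` vertices and `12` edges and `d = 3`, over every field `k` (of any
characteristic) the Lovász–Saks–Schrijver ideal has an embedded associated prime. -/
theorem result (k : Type) [Field k] :
    ∃ P : Ideal (MvPolynomial (Fin 3 × Fin 8) k), IsEmbedded (lssIdeal k 3 8 graph) P := by
  refine embedded_of (lssIdeal k 3 8 graph) (Submonoid.powers (hh (gen k))) (xx (gen k)) ?_ ?_
  · rintro _ ⟨t, rfl⟩
    exact pow_mul_x_notMem t
  · intro Q hQ hLQ hM hann
    refine exists_smaller Q hQ hLQ (hM _ ⟨1, pow_one _⟩) (hann _ ?_)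
    rw [mul_comm]
    exact x_mul_y_mem

end Pool.Agent.Results.MP_e1e5e2_ag.EmbeddedPrime
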